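import Pool.Agent.X193.CLO.Final

/-!
# Finite equational bases for the two-sorted algebras of finitely generated clonoids

Let `A` and `B` be modules over finite rings `R` and `S`, and let `F` be a finite set of finitary
operations from `A` to `B`.  The two-sorted algebra `M(A, B, F)` has a finite equational basis.

Idea of the proof.  Up to the module laws an identity of the second sort in `m` variables of the
first sort is a linear combination over `S` of words of length `m`, a word being an operation
symbol together with the sequence of columns of a matrix over `R`.  Substituting sums of new
variables for the variables repeats letters of the words.  The words over a finite alphabet are
well-quasi-ordered under the repetitions which are ordered surjections (by the lemma of Higman) and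
such repetitions respect a suitable linear ordering of the words of each length.  Comparing
leading coefficients shows that all relations between the words are consequences of finitely many.
-/

set_option autoImplicit false

namespace Pool.Agent.Results.MP_2f8e94_al.FiniteBasis

open Pool.Agent.X193.CLO

universe u1 u2 u3 u4 u5

/-- For all modules `A`, `B` over finite rings `R`, `S` and every finite family of finitary
operations from `A` to `B`, the two-sorted algebra given by the module operations of `A` and of
`B` and by these operations has a finite equational basis. -/
theorem result (R : Type u1) [Ring R] [Finite R] (S : Type u2) [Ring S] [Finite S]
    (A : Type u3) [AddCommGroup A] [Module R A] (B : Type u4) [AddCommGroup B] [Module S B]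
    (F : Type u5) [Finite F] (ar : F → ℕ) (op : (f : F) → (Fin (ar f) → A) → B) :
    HasFiniteBasis (modAlg R S ar A B op) :=
  hasFiniteBasis op

end Pool.Agent.Results.MP_2f8e94_al.FiniteBasis
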